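import Pool.Agent.FGT.Stmts

/-!
# FGT SEP (helper82): separation of points by normal subgroups of finite index
-/

namespace Pool.Agent.FGT.H82

open Filter Topology Pool.Agent.FGT

universe u

section

variable {L : Type u} [Group L] (α : L →* Equiv.Perm ℤ) (z : ℤ)

/-- the orbit of `z` -/
def Lm : Set ℤ := {j | ∃ g : L, α g z = j}

theorem mem_Lm_act {j : ℤ} (g : L) (h : j ∈ Lm α z) : α g j ∈ Lm α z := by
  obtain ⟨h, rfl⟩ := h
  exact ⟨g * h, by rw [map_mul]; rfl⟩

theorem mem_Lm_act_iff {j : ℤ} (g : L) : α g j ∈ Lm α z ↔ j ∈ Lm α z := by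
  refine ⟨fun h => ?_, mem_Lm_act α z g⟩
  have h1 := mem_Lm_act α z g⁻¹ h
  rwa [← Equiv.Perm.mul_apply, ← map_mul, inv_mul_cancel, map_one] at h1

/-- the action on the orbit -/
@[reducible] def actLm : MulAction L (Lm α z) where
  smul g x := ⟨α g x.1, mem_Lm_act α z g x.2⟩
  one_smul x := Subtype.ext (by show α 1 x.1 = x.1; rw [map_one]; rfl)
  mul_smul g h x := Subtype.ext (by show α (g * h) x.1 = α g (α h x.1); rw [map_mul]; rfl)

open Classical in
/-- extension by zero -/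
noncomputable def extz (f : Lm α z → ℝ) (j : ℤ) : ℝ := if h : j ∈ Lm α z then f ⟨j, h⟩ else 0

theorem extz_of_mem (f : Lm α z → ℝ) {j : ℤ} (h : j ∈ Lm α z) : extz α z f j = f ⟨j, h⟩ := by
  unfold extz
  rw [dif_pos h]

theorem extz_of_not (f : Lm α z → ℝ) {j : ℤ} (h : j ∉ Lm α z) : extz α z f j = 0 := by
  unfold extz
  rw [dif_neg h]

theorem extz_bdd {f : Lm α z → ℝ} (hf : Bdd f) : Bdd (extz α z f) := by
  obtain ⟨C, hC⟩ := hf
  refine ⟨|C|, fun j => ?_⟩
  by_cases h : j ∈ Lm α z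
  · rw [extz_of_mem α z f h]
    exact (hC _).trans (le_abs_self C)
  · rw [extz_of_not α z f h, abs_zero]
    exact abs_nonneg C

theorem extz_add (f g : Lm α z → ℝ) : extz α z (f + g) = extz α z f + extz α z g := by
  funext j
  rw [Pi.add_apply]
  by_cases h : j ∈ Lm α z
  · rw [extz_of_mem α z _ h, extz_of_mem α z _ h, extz_of_mem α z _ h]; rfl
  · rw [extz_of_not α z _ h, extz_of_not α z _ h, extz_of_not α z _ h, add_zero]

theorem extz_smul (c : ℝ) (f : Lm α z → ℝ) : extz α z (c • f) = c • extz α z f := by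
  funext j
  rw [Pi.smul_apply]
  by_cases h : j ∈ Lm α z
  · rw [extz_of_mem α z _ h, extz_of_mem α z _ h]; rfl
  · rw [extz_of_not α z _ h, extz_of_not α z _ h, smul_zero]

theorem extz_one : extz α z (fun _ => 1) = ind (Lm α z) := by
  funext j
  by_cases h : j ∈ Lm α z
  · rw [extz_of_mem α z _ h, ind_of_mem h]
  · rw [extz_of_not α z _ h, ind_of_not_mem h]

theorem extz_nonneg {f : Lm α z → ℝ} (hf : ∀ x, 0 ≤ f x) (j : ℤ) : 0 ≤ extz α z f j := by
  by_cases h : j ∈ Lm α z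
  · rw [extz_of_mem α z _ h]; exact hf _
  · rw [extz_of_not α z _ h]

theorem orb_top_eq (g : L) : orb α (⊤ : Subgroup L) (α g z) = Lm α z := by
  ext j
  constructor
  · rintro ⟨h, -, rfl⟩
    exact ⟨h * g, by rw [map_mul]; rfl⟩
  · rintro ⟨h, rfl⟩
    refine ⟨h * g⁻¹, Subgroup.mem_top _, ?_⟩
    rw [← Equiv.Perm.mul_apply, ← map_mul, inv_mul_cancel_right]

end

/-- the abstract end of the proof: an equivariant map with finite image -/
theorem fin_end {L : Type u} [Group L] {Λ : Type} [MulAction L Λ] {W : Type} [AddCommGroup W]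
    [Module ℝ W] (ρ : L →* Module.End ℝ W) (w : Λ → W)
    (hw : ∀ (g : L) (x : Λ), w (g • x) = ρ g (w x)) (hfin : (Set.range w).Finite)
    {x y : Λ} (hxy : w x ≠ w y) :
    ∃ N : Subgroup L, N.Normal ∧ N.FiniteIndex ∧ ∀ g ∈ N, g • x ≠ y := by
  classical
  let A : MulAction L (Set.range w) :=
    { smul := fun g v => ⟨ρ g v.1, by
        obtain ⟨_, x, rfl⟩ := v
        exact ⟨g • x, hw g x⟩⟩
      one_smul := fun v => Subtype.ext (by
        show ρ 1 v.1 = v.1
        rw [map_one]; rfl)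
      mul_smul := fun g h v => Subtype.ext (by
        show ρ (g * h) v.1 = ρ g (ρ h v.1)
        rw [map_mul]; rfl) }
  haveI : Finite (Set.range w) := hfin.to_subtype
  refine ⟨(MulAction.toPermHom L (Set.range w)).ker, inferInstance, inferInstance, ?_⟩
  intro g hg hgx
  have h1 : MulAction.toPermHom L (Set.range w) g = 1 := hg
  have h2 : (MulAction.toPermHom L (Set.range w) g) ⟨w x, x, rfl⟩ = ⟨w x, x, rfl⟩ := by
    rw [h1]; rfl
  have h3 : ρ g (w x) = w x := congrArg Subtype.val h2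
  apply hxy
  rw [← h3, ← hw, hgx]

/-- SEP -/
theorem sep (dns : DnsStmt.{u}) (stb : StbStmt.{u}) (kra : KraStmt.{u}) (psd : PsdStmt.{u})
    (fam : FamStmt.{u}) : SepStmt.{u} := by
  classical
  intro L _ hL α hα I hI z hNS hTB z₁ z₂ hz₁ hz₂ hk
  obtain ⟨k1, k2, k3, k4, -, -, -⟩ := kra L α hα I hI
  haveI : Infinite L := hL.inf
  have hfg : (⊤ : Subgroup L).FG := hL.fg.out
  have hinf : ((⊤ : Subgroup L) : Set L).Infinite := by
    rw [Subgroup.coe_top]
    exact Set.infinite_univ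
  letI : MulAction L (Lm α z) := actLm α z
  have smul_val : ∀ (g : L) (x : Lm α z), ((g • x : Lm α z) : ℤ) = α g x.1 := fun _ _ => rfl
  -- positive mass
  obtain ⟨c, hc, hcm⟩ := dns L α hα I hI ⊤ hfg
  have hm : 0 < ms I (Lm α z) := by
    obtain ⟨g, -, hg⟩ := hNS ⊤ hfg hinf ⊤ inferInstance
    have h1 := hcm (α g z) hg
    rw [orb_top_eq] at h1
    exact hc.trans_le h1
  -- the mean
  set J : (Lm α z → ℝ) → ℝ := fun f => I (extz α z f) / ms I (Lm α z) with hJ
  have hpre : MulAction.IsPretransitive L (Lm α z) := by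
    refine ⟨?_⟩
    rintro ⟨_, g, rfl⟩ ⟨_, h, rfl⟩
    refine ⟨h * g⁻¹, Subtype.ext ?_⟩
    show α (h * g⁻¹) (α g z) = α h z
    rw [← Equiv.Perm.mul_apply, ← map_mul, inv_mul_cancel_right]
  have hDD : ∀ x : Lm α z, DD α I x.1 = DD α I z := by
    rintro ⟨_, g, rfl⟩
    exact k1 g z
  obtain ⟨W, _, _, ρ, w, hWf, hw, hne⟩ := fam L (Lm α z) hpre
    (fun x y => kk α I x.1 y.1) (DD α I z)
    (fun x y => k3 x.1 y.1) (fun g x y => k2 g x.1 y.1)
    (by
      intro s c
      have h1 := psd L α hα I hI (s.map (Function.Embedding.subtype _)) (extz α z c)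
      rw [Finset.sum_map] at h1
      refine h1.trans (le_of_eq (Finset.sum_congr rfl fun i _ => ?_))
      rw [Finset.sum_map]
      refine Finset.sum_congr rfl fun j _ => ?_
      simp only [Function.Embedding.subtype_apply]
      rw [extz_of_mem α z c i.2, extz_of_mem α z c j.2])
    (fun x => by rw [k4, hDD])
    (by
      intro ε hε
      obtain ⟨F, hF, hF2⟩ := hTB ε hε
      refine ⟨F.subtype (· ∈ Lm α z), ?_⟩
      rintro ⟨_, g, rfl⟩
      obtain ⟨f, hf, hlt⟩ := hF2 g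
      exact ⟨⟨f, hF f hf⟩, Finset.mem_subtype.2 hf, hlt⟩)
    J
    (by
      intro f g hf hg
      show I (extz α z (f + g)) / _ = _
      rw [extz_add, hI.add (extz_bdd α z hf) (extz_bdd α z hg), add_div])
    (by
      intro c f hf
      show I (extz α z (c • f)) / _ = _
      rw [extz_smul, hI.smul c (extz_bdd α z hf), mul_div_assoc])
    (by
      intro f hf h0
      exact div_nonneg (hI.nonneg (extz_bdd α z hf) (extz_nonneg α z h0)) hm.le)
    (by
      show I (extz α z (fun _ => 1)) / _ = 1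
      rw [extz_one]
      exact div_self hm.ne')
    (by
      intro g f hf
      show I (extz α z fun x => f (g • x)) / _ = I (extz α z f) / _
      obtain ⟨R, hR⟩ := hα g
      rw [← hI.perm (α g) R hR (extz_bdd α z hf)]
      congr 2
      funext j
      rw [Function.comp_apply]
      by_cases hj : j ∈ Lm α z
      · rw [extz_of_mem α z _ hj, extz_of_mem α z _ (mem_Lm_act α z g hj)]
        rfl
      · rw [extz_of_not α z _ hj, extz_of_not α z _ (fun h => hj ((mem_Lm_act_iff α z g).1 h))])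
    ⟨z₁, hz₁⟩ ⟨z₂, hz₂⟩ hk
  -- a finite set whose image spans
  have hspan : (Submodule.span ℝ (Set.range w)).FG := IsNoetherian.noetherian _
  obtain ⟨s', hs', hs'2⟩ := Submodule.fg_span_iff_fg_span_finset_subset _ |>.1 hspan
  rw [← Set.image_univ, Finset.subset_set_image_iff] at hs'
  obtain ⟨F, -, rfl⟩ := hs'
  obtain ⟨K, -, hKfg, hKinf, hKF⟩ := stb L hL.tors hL.nlfs α hα ⊤ hfg hinf
    (F.map (Function.Embedding.subtype _))
  have hfix : ∀ g ∈ K, ∀ x : Lm α z, w (g • x) = w x := by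
    intro g hg x
    have h1 : ∀ v ∈ Submodule.span ℝ (Set.range w), ρ g v = v := by
      rw [hs'2]
      intro v hv
      induction hv using Submodule.span_induction with
      | mem v hv =>
        obtain ⟨f, hf, rfl⟩ := Finset.mem_image.1 (Finset.mem_coe.1 hv)
        rw [← hw]
        congr 1
        apply Subtype.ext
        exact hKF f.1 (Finset.mem_map_of_mem (Function.Embedding.subtype _) hf) g hg
      | zero => exact map_zero _
      | add v v' _ _ ih ih' => rw [map_add, ih, ih']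
      | smul c v _ ih => rw [map_smul, ih]
    rw [hw]
    exact h1 _ (Submodule.subset_span ⟨x, rfl⟩)
  obtain ⟨c', hc', hcm'⟩ := dns L α hα I hI K hKfg
  obtain ⟨g₀, -, hg₀⟩ := hNS K hKfg hKinf ⊤ inferInstance
  -- the fibres
  set B : W → Set ℤ := fun v => {j | ∃ h : j ∈ Lm α z, w ⟨j, h⟩ = v} with hB
  have hBdis : ∀ v v' : W, v ≠ v' → Disjoint (B v) (B v') := by
    intro v v' hvv
    rw [Set.disjoint_left]
    rintro j ⟨h, h1⟩ ⟨h', h1'⟩
    exact hvv (h1.symm.trans h1')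
  have hy : c' ≤ ms I (B (w ⟨α g₀ z, g₀, rfl⟩)) := by
    refine (hcm' _ hg₀).trans (hI.ms_mono ?_)
    rintro j ⟨g, hg, rfl⟩
    exact ⟨mem_Lm_act α z g ⟨g₀, rfl⟩, hfix g hg ⟨α g₀ z, g₀, rfl⟩⟩
  have hall : ∀ x : Lm α z, c' ≤ ms I (B (w x)) := by
    intro x
    obtain ⟨g, hg⟩ := hpre.exists_smul_eq (⟨α g₀ z, g₀, rfl⟩ : Lm α z) x
    obtain ⟨R, hR⟩ := hα g
    have h1 : B (w x) = α g '' B (w ⟨α g₀ z, g₀, rfl⟩) := by
      ext j
      constructor
      · rintro ⟨h, hj⟩
        refine ⟨α g⁻¹ j, ⟨mem_Lm_act α z g⁻¹ h, ?_⟩, ?_⟩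
        · have h2 : w (g⁻¹ • (⟨j, h⟩ : Lm α z)) = w (g⁻¹ • x) := by rw [hw, hw, hj]
          have h3 : g⁻¹ • x = (⟨α g₀ z, g₀, rfl⟩ : Lm α z) := by rw [← hg, inv_smul_smul]
          rw [h3] at h2
          exact h2
        · rw [← Equiv.Perm.mul_apply, ← map_mul, mul_inv_cancel, map_one]
          rfl
      · rintro ⟨i, ⟨h, hi⟩, rfl⟩
        refine ⟨mem_Lm_act α z g h, ?_⟩
        have h2 : w (g • (⟨i, h⟩ : Lm α z)) = w (g • (⟨α g₀ z, g₀, rfl⟩ : Lm α z)) := by
          rw [hw, hw, hi]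
        rw [hg] at h2
        exact h2
    rw [h1, hI.ms_perm (α g) R hR]
    exact hy
  have hrf : (Set.range w).Finite := by
    by_contra hcon
    obtain ⟨n, hn⟩ := exists_nat_gt (1 / c')
    obtain ⟨s, hs, hsn⟩ := (show (Set.range w).Infinite from hcon).exists_subset_card_eq n
    have h1 := hI.card_le s B (fun i _ j _ hij => hBdis i j hij) c' (by
      intro v hv
      obtain ⟨x, rfl⟩ := hs hv
      exact hall x)
    rw [hsn] at h1
    rw [div_lt_iff₀ hc'] at hn
    linarith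
  obtain ⟨N, hN1, hN2, hN3⟩ := fin_end ρ w hw hrf hne
  refine ⟨N, hN1, hN2, fun g hg h => hN3 g hg (Subtype.ext h)⟩

end Pool.Agent.FGT.H82
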